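import Mathlib

/-!
# Cubic characters of finite fields and diagonal cubic forms
-/

set_option autoImplicit false
set_option linter.unusedSectionVars false
set_option linter.style.haveILetI false

namespace Pool.Agent.N883.C

open Finset

section field

variable {k : Type} [Field k] [Fintype k]

/-- the cubic character exists -/
theorem exists_cubic (h : 3 ∣ Fintype.card k - 1) : ∃ χ : MulChar k ℂ, χ ^ 3 = 1 ∧ χ ≠ 1 := by
  have h1 : IsPrimitiveRoot (Complex.exp (2 * Real.pi * Complex.I / (3 : ℕ))) 3 :=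
    Complex.isPrimitiveRoot_exp 3 (by norm_num)
  obtain ⟨χ, hχ⟩ := MulChar.exists_mulChar_orderOf k h h1
  refine ⟨χ, ?_, ?_⟩
  · rw [← hχ]
    exact pow_orderOf_eq_one χ
  · rintro rfl
    simp at hχ

variable {χ : MulChar k ℂ}

lemma chi3 (h : χ ^ 3 = 1) {x : k} (hx : x ≠ 0) : χ x ^ 3 = 1 := by
  have h1 : (χ ^ 3) ((Units.mk0 x hx : kˣ) : k) = (1 : MulChar k ℂ) (Units.mk0 x hx : kˣ) := by
    rw [h]
  rw [MulChar.pow_apply_coe, MulChar.one_apply_coe, Units.val_mk0] at h1
  exact h1

lemma chi_neg (h : χ ^ 3 = 1) : χ (-1) = 1 := by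
  have h1 := chi3 h (x := -1) (neg_ne_zero.2 one_ne_zero)
  have h2 : χ (-1) ^ 2 = 1 := by
    rw [← map_pow]
    simp
  rwa [pow_succ, h2, one_mul] at h1

lemma chi_eq (h : χ ^ 3 = 1) {x : k} (hx : x ≠ 0) (h1 : χ x ≠ 1) : χ x ^ 2 + χ x + 1 = 0 := by
  have h2 := chi3 h hx
  have h3 : (χ x - 1) * (χ x ^ 2 + χ x + 1) = 0 := by linear_combination h2
  exact (mul_eq_zero.1 h3).resolve_left (sub_ne_zero.2 h1)

lemma chi_inv (h : χ ^ 3 = 1) (x : k) : χ⁻¹ x = χ x ^ 2 := by
  have : χ⁻¹ = χ ^ 2 := by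
    rw [inv_eq_iff_mul_eq_one, ← pow_succ', h]
  rw [this, MulChar.pow_apply' _ two_ne_zero]

/-- the number of cube roots -/
lemma card_cube (h : χ ^ 3 = 1) (h1 : χ ≠ 1) (a : k) :
    ((Nat.card {x : k // x ^ 3 = a} : ℕ) : ℂ) = 1 + χ a + χ a ^ 2 := by
  classical
  obtain ⟨g, hg⟩ := IsCyclic.exists_generator (α := kˣ)
  have hq : 1 < Fintype.card k := Fintype.one_lt_card
  have ha3 : χ g ^ 3 = 1 := chi3 h g.ne_zero
  have ha1 : χ g ≠ 1 := by
    intro h2
    apply h1
    ext x
    obtain ⟨j, hj⟩ := (mem_powers_iff_mem_zpowers.2 (hg x))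
    have hx' : (x : k) = (g : k) ^ j := by
      have := congrArg Units.val hj
      simpa using this.symm
    rw [hx', map_pow, h2, one_pow, ← hx', MulChar.one_apply_coe]
  have hord : orderOf (χ g) = 3 := by
    have : Fact (Nat.Prime 3) := ⟨Nat.prime_three⟩
    exact orderOf_eq_prime ha3 ha1
  have hgo : orderOf g = Fintype.card k - 1 := by
    rw [orderOf_eq_card_of_forall_mem_zpowers hg, Nat.card_eq_fintype_card, Fintype.card_units]
  obtain ⟨m, hm⟩ : 3 ∣ Fintype.card k - 1 := by
    rw [← hgo, ← hord]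
    apply orderOf_dvd_of_pow_eq_one
    rw [← map_pow, ← Units.val_pow_eq_pow_val, pow_orderOf_eq_one, Units.val_one, map_one]
  have hm0 : 0 < m := by omega
  have hg1 : orderOf g = 3 * m := by rw [hgo, hm]
  set w : k := (g : k) ^ m with hw
  have hw3 : w ^ 3 = 1 := by
    rw [hw, ← pow_mul, mul_comm, ← hg1, ← Units.val_pow_eq_pow_val, pow_orderOf_eq_one,
      Units.val_one]
  have r2 : w ≠ 1 := by
    intro h2
    have h3 : g ^ m = 1 := by
      ext
      push_cast
      exact h2
    have h4 := orderOf_dvd_of_pow_eq_one h3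
    rw [hg1] at h4
    have := Nat.le_of_dvd hm0 h4
    omega
  have r1 : w ^ 2 + w + 1 = 0 := by
    have h2 : (w - 1) * (w ^ 2 + w + 1) = 0 := by linear_combination hw3
    exact (mul_eq_zero.1 h2).resolve_left (sub_ne_zero.2 r2)
  have hw0 : w ≠ 0 := by
    intro h2
    rw [h2] at r1
    simp at r1
  by_cases ha : a = 0
  · subst ha
    rw [MulChar.map_zero]
    have e : Nat.card {x : k // x ^ 3 = 0} = 1 := by
      rw [Nat.card_eq_one_iff_unique]
      refine ⟨⟨fun x y => Subtype.ext ?_⟩, ⟨⟨0, by simp⟩⟩⟩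
      have hx := pow_eq_zero_iff (three_ne_zero) |>.1 x.2
      have hy := pow_eq_zero_iff (three_ne_zero) |>.1 y.2
      rw [hx, hy]
    rw [e]
    simp
  · by_cases hc : ∃ x0 : k, x0 ^ 3 = a
    · obtain ⟨x0, hx0⟩ := hc
      have hx0' : x0 ≠ 0 := by
        rintro rfl
        apply ha
        rw [← hx0]
        simp
      have e1 : χ a = 1 := by
        rw [← hx0, map_pow]
        exact chi3 h hx0'
      have hset : {x : k | x ^ 3 = a} = ({x0, x0 * w, x0 * w ^ 2} : Finset k) := by
        ext x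
        simp only [Set.mem_ofPred_eq, Finset.coe_insert, Finset.coe_singleton, Set.mem_insert_iff,
          Set.mem_singleton_iff]
        constructor
        · intro hx
          have h5 : (x - x0) * ((x - x0 * w) * (x - x0 * w ^ 2)) = 0 := by
            linear_combination hx - hx0 + (-x ^ 2 * x0 + x * x0 ^ 2 * w ^ 1 + x * x0 ^ 2 * 0 -
              x0 ^ 3 * (w - 1) ) * r1 - x * x0 ^ 2 * 0 * hw3
          rcases mul_eq_zero.1 h5 with h6 | h6
          · exact Or.inl (sub_eq_zero.1 h6)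
          · rcases mul_eq_zero.1 h6 with h6 | h6
            · exact Or.inr (Or.inl (sub_eq_zero.1 h6))
            · exact Or.inr (Or.inr (sub_eq_zero.1 h6))
        · rintro (rfl | rfl | rfl)
          · exact hx0
          · rw [mul_pow, hw3, mul_one]; exact hx0
          · rw [mul_pow, ← pow_mul, mul_comm 2 3, pow_mul, hw3, one_pow, mul_one]; exact hx0
      have e : Nat.card {x : k // x ^ 3 = a} = 3 := by
        have : Nat.card {x : k // x ^ 3 = a} = Nat.card ({x : k | x ^ 3 = a} : Set k) := rfl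
        rw [this, Nat.card_coe_set_eq, hset, Set.ncard_coe_finset]
        rw [Finset.card_eq_three]
        refine ⟨_, _, _, ?_, ?_, ?_, rfl⟩
        · intro h5
          apply r2
          have : x0 * w = x0 * 1 := by rw [mul_one]; exact h5.symm
          exact mul_left_cancel₀ hx0' this
        · intro h5
          have h6 : w ^ 2 = 1 := by
            have : x0 * w ^ 2 = x0 * 1 := by rw [mul_one]; exact h5.symm
            exact mul_left_cancel₀ hx0' this
          apply r2
          linear_combination hw3 - w * h6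
        · intro h5
          have h6 : w = w ^ 2 := mul_left_cancel₀ hx0' h5
          apply r2
          have h7 : w * 1 = w * w := by rw [mul_one, ← pow_two]; exact h6
          exact (mul_left_cancel₀ hw0 h7).symm
      rw [e, e1]
      norm_num
    · have e : Nat.card {x : k // x ^ 3 = a} = 0 := by
        rw [Nat.card_eq_zero]
        left
        exact ⟨fun x => hc ⟨x.1, x.2⟩⟩
      rw [e]
      have h5 : χ a ≠ 1 := by
        intro h5
        apply hc
        obtain ⟨j, hj⟩ := (mem_powers_iff_mem_zpowers.2 (hg (Units.mk0 a ha)))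
        have hj' : a = (g : k) ^ j := by
          have := congrArg Units.val hj
          simpa using this.symm
        rw [hj', map_pow] at h5
        have h9 : 3 ∣ j := by
          rw [← hord]
          exact orderOf_dvd_of_pow_eq_one h5
        obtain ⟨i, hi⟩ := h9
        refine ⟨(g : k) ^ i, ?_⟩
        rw [← pow_mul, mul_comm, ← hi]
        exact hj'.symm
      have h6 := chi_eq h ha h5
      push_cast
      linear_combination -h6

/-- sum over cubes -/
lemma sum_cube (h : χ ^ 3 = 1) (h1 : χ ≠ 1) (f : k → ℂ) :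
    ∑ x : k, f (x ^ 3) = ∑ a : k, (1 + χ a + χ a ^ 2) * f a := by
  classical
  rw [← Finset.sum_fiberwise (s := Finset.univ) (g := fun x : k => x ^ 3)]
  refine Finset.sum_congr rfl fun a _ => ?_
  rw [← card_cube h h1 a]
  rw [Finset.sum_congr rfl (g := fun _ => f a)
    (fun x hx => by rw [(Finset.mem_filter.1 hx).2])]
  rw [Finset.sum_const, nsmul_eq_mul, Nat.card_eq_fintype_card, Fintype.card_subtype]

/-- the cubic exponential sum -/
lemma cube_sum (h : χ ^ 3 = 1) (h1 : χ ≠ 1) {ψ : AddChar k ℂ} (hψ : ψ ≠ 1) {t : k} (ht : t ≠ 0) :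
    ∑ x : k, ψ (t * x ^ 3) = χ t ^ 2 * gaussSum χ ψ + χ t * gaussSum χ⁻¹ ψ := by
  classical
  have hp : ψ.IsPrimitive := AddChar.IsPrimitive.of_ne_one hψ
  have hψt : ∑ a : k, ψ (t * a) = 0 := by
    have h2 : ψ.mulShift t ≠ 1 := hp ht
    have h3 := AddChar.sum_eq_zero_of_ne_one h2
    simpa [AddChar.mulShift_apply] using h3
  have key : ∀ φ : MulChar k ℂ, ∑ a : k, φ a * ψ (t * a) = φ⁻¹ t * gaussSum φ ψ := by
    intro φ
    have h2 := gaussSum_mulShift φ ψ (Units.mk0 t ht)
    have h3 : φ t * φ⁻¹ t = 1 := by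
      rw [MulChar.inv_apply' , ← map_mul, mul_inv_cancel₀ ht, map_one]
    rw [Units.val_mk0] at h2
    rw [← h2]
    have h4 : gaussSum φ (ψ.mulShift t) = ∑ a : k, φ a * ψ (t * a) := by
      unfold gaussSum
      simp [AddChar.mulShift_apply]
    rw [h4]
    linear_combination (-(∑ a : k, φ a * ψ (t * a))) * h3
  rw [sum_cube h h1 (fun y => ψ (t * y))]
  have e1 : ∀ a : k, (1 + χ a + χ a ^ 2) * ψ (t * a) =
      ψ (t * a) + χ a * ψ (t * a) + χ⁻¹ a * ψ (t * a) := by
    intro a
    rw [chi_inv h]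
    ring
  rw [Finset.sum_congr rfl fun a _ => e1 a, Finset.sum_add_distrib, Finset.sum_add_distrib,
    hψt, key, key, inv_inv, chi_inv h, zero_add]

open scoped Classical in
/-- orthogonality -/
lemma sum_psi {ψ : AddChar k ℂ} (hψ : ψ ≠ 1) (c : k) :
    ∑ t : k, ψ (t * c) = if c = 0 then (Fintype.card k : ℂ) else 0 := by
  rw [AddChar.sum_mulShift c (AddChar.IsPrimitive.of_ne_one hψ)]
  split_ifs <;> simp

lemma psi_sum (ψ : AddChar k ℂ) {ι : Type} (s : Finset ι) (f : ι → k) :
    ψ (∑ i ∈ s, f i) = ∏ i ∈ s, ψ (f i) := by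
  classical
  induction s using Finset.induction_on with
  | empty => simp
  | insert a s ha ih => rw [Finset.sum_insert ha, Finset.prod_insert ha, AddChar.map_add_eq_mul, ih]

open scoped Classical in
/-- the number of zeros of a diagonal cubic form -/
theorem card_diag {m : ℕ} (h : χ ^ 3 = 1) (h1 : χ ≠ 1) {ψ : AddChar k ℂ} (hψ : ψ ≠ 1)
    (a : Fin m → k) (ha : ∀ i, a i ≠ 0) :
    (Fintype.card k : ℂ) * (Nat.card {x : Fin m → k // ∑ i, a i * x i ^ 3 = 0} : ℂ) =
      (Fintype.card k : ℂ) ^ m + ∑ t ∈ (Finset.univ : Finset k).erase 0,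
        ∏ i, (χ (t * a i) ^ 2 * gaussSum χ ψ + χ (t * a i) * gaussSum χ⁻¹ ψ) := by
  classical
  have e1 : (Fintype.card k : ℂ) * (Nat.card {x : Fin m → k // ∑ i, a i * x i ^ 3 = 0} : ℂ) =
      ∑ x : Fin m → k, ∑ t : k, ψ (t * ∑ i, a i * x i ^ 3) := by
    rw [Finset.sum_congr rfl fun x _ => sum_psi hψ (∑ i, a i * x i ^ 3), ← Finset.sum_filter,
      Finset.sum_const, nsmul_eq_mul, mul_comm, Nat.card_eq_fintype_card, Fintype.card_subtype]
  have e2 : ∀ t : k, ∑ x : Fin m → k, ψ (t * ∑ i, a i * x i ^ 3) =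
      ∏ i, ∑ y : k, ψ (t * a i * y ^ 3) := by
    intro t
    rw [Finset.prod_univ_sum, Fintype.piFinset_univ]
    refine Finset.sum_congr rfl fun x _ => ?_
    rw [Finset.mul_sum, psi_sum]
    refine Finset.prod_congr rfl fun i _ => ?_
    rw [mul_assoc]
  rw [e1, Finset.sum_comm, Finset.sum_congr rfl fun t _ => e2 t,
    ← Finset.add_sum_erase _ _ (Finset.mem_univ (0 : k))]
  congr 1
  · simp
  · refine Finset.sum_congr rfl fun t ht => Finset.prod_congr rfl fun i _ => ?_
    exact cube_sum h h1 hψ (mul_ne_zero (Finset.ne_of_mem_erase ht) (ha i))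

end field

end Pool.Agent.N883.C
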