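import Mathlib
import Pool.Agent.N883.C.Cube

/-!
# The number of points of the cubic threefold and the cubic fivefold
`x₀³ + ... + xₙ³ + δ xₙ₊₁³ = 0` over finite fields
-/

set_option autoImplicit false
set_option linter.unusedSectionVars false
set_option linter.style.haveILetI false

namespace Pool.Agent.N883.C

open Finset

lemma alg5 (u g h d : ℂ) (hu : u ^ 3 = 1) :
    (u ^ 2 * g + u * h) ^ 4 * ((u * d) ^ 2 * g + u * d * h) =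
      (g * h ^ 4 * (d ^ 2 + 4 * d) + g ^ 4 * h * (4 * d ^ 2 + d)) +
      (6*g^2*h^3*d + 4*g^2*h^3*d^2 + g^5*d^2) * u +
      (h^5*d + 4*g^3*h^2*d + 6*g^3*h^2*d^2) * u ^ 2 := by
  linear_combination (4*g*h^4*d + 1*g*h^4*d^2 + 1*g^4*h*d + 4*g^4*h*d^2 + 6*u*g^2*h^3*d + 4*u*g^2*h^3*d^2 +
    1*u*g^5*d^2 + 1*u^2*h^5*d + 4*u^2*g^3*h^2*d + 6*u^2*g^3*h^2*d^2 + 4*u^3*g*h^4*d +
    1*u^3*g*h^4*d^2 + 1*u^3*g^4*h*d + 4*u^3*g^4*h*d^2 + 6*u^4*g^2*h^3*d +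
    4*u^4*g^2*h^3*d^2 + 1*u^4*g^5*d^2 + 4*u^5*g^3*h^2*d + 6*u^5*g^3*h^2*d^2 +
    1*u^6*g^4*h*d + 4*u^6*g^4*h*d^2 + 1*u^7*g^5*d^2) * hu

lemma alg7 (u g h d : ℂ) (hu : u ^ 3 = 1) :
    (u ^ 2 * g + u * h) ^ 6 * ((u * d) ^ 2 * g + u * d * h) =
      (g ^ 2 * h ^ 5 * (6 * d ^ 2 + 15 * d) + g ^ 5 * h ^ 2 * (15 * d ^ 2 + 6 * d)) +
      (h^7*d + 20*g^3*h^4*d + 15*g^3*h^4*d^2 + g^6*h*d + 6*g^6*h*d^2) * u +
      (6*g*h^6*d + g*h^6*d^2 + 15*g^4*h^3*d + 20*g^4*h^3*d^2 + g^7*d^2) * u ^ 2 := by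
  linear_combination (15*g^2*h^5*d + 6*g^2*h^5*d^2 + 6*g^5*h^2*d + 15*g^5*h^2*d^2 + 1*u*h^7*d +
    20*u*g^3*h^4*d + 15*u*g^3*h^4*d^2 + 1*u*g^6*h*d + 6*u*g^6*h*d^2 + 6*u^2*g*h^6*d +
    1*u^2*g*h^6*d^2 + 15*u^2*g^4*h^3*d + 20*u^2*g^4*h^3*d^2 + 1*u^2*g^7*d^2 +
    15*u^3*g^2*h^5*d + 6*u^3*g^2*h^5*d^2 + 6*u^3*g^5*h^2*d + 15*u^3*g^5*h^2*d^2 +
    1*u^4*h^7*d + 20*u^4*g^3*h^4*d + 15*u^4*g^3*h^4*d^2 + 1*u^4*g^6*h*d +
    6*u^4*g^6*h*d^2 + 6*u^5*g*h^6*d + 1*u^5*g*h^6*d^2 + 15*u^5*g^4*h^3*d +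
    20*u^5*g^4*h^3*d^2 + 1*u^5*g^7*d^2 + 15*u^6*g^2*h^5*d + 6*u^6*g^2*h^5*d^2 +
    6*u^6*g^5*h^2*d + 15*u^6*g^5*h^2*d^2 + 20*u^7*g^3*h^4*d + 15*u^7*g^3*h^4*d^2 +
    1*u^7*g^6*h*d + 6*u^7*g^6*h*d^2 + 15*u^8*g^4*h^3*d + 20*u^8*g^4*h^3*d^2 +
    1*u^8*g^7*d^2 + 6*u^9*g^5*h^2*d + 15*u^9*g^5*h^2*d^2 + 1*u^10*g^6*h*d +
    6*u^10*g^6*h*d^2 + 1*u^11*g^7*d^2) * hu

/-- the affine cone over the cubic hypersurface -/
def Cone (n : ℕ) {k : Type} [Field k] (δ : k) : Type :=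
  {x : Fin (n + 2) → k // ∑ i : Fin (n + 1), x i.castSucc ^ 3 + δ * x (Fin.last (n + 1)) ^ 3 = 0}

section
variable {k : Type} [Field k] [Fintype k] {χ : MulChar k ℂ}

open scoped Classical in
lemma sum_three (h : χ ^ 3 = 1) (h1 : χ ≠ 1) (A B C : ℂ) :
    ∑ t ∈ (univ : Finset k).erase 0, (A + B * χ t + C * χ t ^ 2) = (Fintype.card k - 1) * A := by
  have e0 : ∑ t : k, χ t = 0 := MulChar.sum_eq_zero_of_ne_one h1
  have h2 : χ⁻¹ ≠ 1 := by simpa using h1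
  have e1 : ∑ t : k, χ t ^ 2 = 0 := by
    rw [← MulChar.sum_eq_zero_of_ne_one h2]
    exact Finset.sum_congr rfl fun t _ => (chi_inv h t).symm
  have e2 := Finset.add_sum_erase (univ : Finset k) (fun t => A + B * χ t + C * χ t ^ 2)
    (Finset.mem_univ 0)
  have e3 : ∑ t : k, (A + B * χ t + C * χ t ^ 2) = Fintype.card k * A := by
    rw [Finset.sum_add_distrib, Finset.sum_add_distrib, ← Finset.mul_sum, ← Finset.mul_sum, e0, e1]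
    simp
  rw [e3] at e2
  simp only [MulChar.map_zero] at e2
  linear_combination e2

open scoped Classical in
lemma card_cone (n : ℕ) (h : χ ^ 3 = 1) (h1 : χ ≠ 1) {ψ : AddChar k ℂ} (hψ : ψ ≠ 1) {δ : k}
    (hδ : δ ≠ 0) :
    (Fintype.card k : ℂ) * (Nat.card (Cone n δ) : ℂ) =
      (Fintype.card k : ℂ) ^ (n + 2) + ∑ t ∈ (Finset.univ : Finset k).erase 0,
        (χ t ^ 2 * gaussSum χ ψ + χ t * gaussSum χ⁻¹ ψ) ^ (n + 1) *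
          ((χ t * χ δ) ^ 2 * gaussSum χ ψ + χ t * χ δ * gaussSum χ⁻¹ ψ) := by
  have h2 := card_diag h h1 hψ (m := n + 2) (Fin.snoc (fun _ => 1) δ) (by
    intro i
    refine Fin.lastCases ?_ (fun j => ?_) i
    · rw [Fin.snoc_last]
      exact hδ
    · rw [Fin.snoc_castSucc]
      exact one_ne_zero)
  have h3 : Nat.card (Cone n δ) = Nat.card {x : Fin (n + 2) → k //
      ∑ i, (Fin.snoc (fun _ => 1) δ : Fin (n + 2) → k) i * x i ^ 3 = 0} := by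
    refine Nat.card_congr (Equiv.subtypeEquivRight fun x => ?_)
    rw [Fin.sum_univ_castSucc (fun i => (Fin.snoc (fun _ => 1) δ : Fin (n + 2) → k) i * x i ^ 3)]
    simp only [Fin.snoc_castSucc, Fin.snoc_last, one_mul]
  rw [h3, h2]
  congr 1
  refine Finset.sum_congr rfl fun t _ => ?_
  rw [Fin.prod_univ_castSucc]
  simp only [Fin.snoc_castSucc, Fin.snoc_last, mul_one, map_mul, Finset.prod_const,
    Finset.card_univ, Fintype.card_fin]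

theorem cone3 (h : χ ^ 3 = 1) (h1 : χ ≠ 1) {ψ : AddChar k ℂ} (hψ : ψ ≠ 1) {δ : k} (hδ : δ ≠ 0) :
    (Fintype.card k : ℂ) * (Nat.card (Cone 3 δ) : ℂ) = (Fintype.card k : ℂ) ^ 5 +
      (Fintype.card k - 1) * (gaussSum χ ψ * gaussSum χ⁻¹ ψ ^ 4 * (χ δ ^ 2 + 4 * χ δ) +
        gaussSum χ ψ ^ 4 * gaussSum χ⁻¹ ψ * (4 * χ δ ^ 2 + χ δ)) := by
  classical
  rw [card_cone 3 h h1 hψ hδ, ← sum_three h h1]
  congr 1
  refine Finset.sum_congr rfl fun t ht => ?_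
  exact alg5 (χ t) _ _ _ (chi3 h (Finset.ne_of_mem_erase ht))

theorem cone5 (h : χ ^ 3 = 1) (h1 : χ ≠ 1) {ψ : AddChar k ℂ} (hψ : ψ ≠ 1) {δ : k} (hδ : δ ≠ 0) :
    (Fintype.card k : ℂ) * (Nat.card (Cone 5 δ) : ℂ) = (Fintype.card k : ℂ) ^ 7 +
      (Fintype.card k - 1) * (gaussSum χ ψ ^ 2 * gaussSum χ⁻¹ ψ ^ 5 * (6 * χ δ ^ 2 + 15 * χ δ) +
        gaussSum χ ψ ^ 5 * gaussSum χ⁻¹ ψ ^ 2 * (15 * χ δ ^ 2 + 6 * χ δ)) := by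
  classical
  rw [card_cone 5 h h1 hψ hδ, ← sum_three h h1]
  congr 1
  refine Finset.sum_congr rfl fun t ht => ?_
  exact alg7 (χ t) _ _ _ (chi3 h (Finset.ne_of_mem_erase ht))

/-- product of the Gauss sums -/
lemma gauss_mul (h : χ ^ 3 = 1) (h1 : χ ≠ 1) {ψ : AddChar k ℂ} (hψ : ψ ≠ 1) :
    gaussSum χ ψ * gaussSum χ⁻¹ ψ = Fintype.card k := by
  have h2 := gaussSum_mul_gaussSum_eq_card h1 (AddChar.IsPrimitive.of_ne_one hψ)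
  have h3 : gaussSum χ⁻¹ ψ⁻¹ = gaussSum χ⁻¹ ψ := by
    have h4 := gaussSum_mulShift χ⁻¹ ψ (-1)
    have h5 : χ⁻¹ ((-1 : kˣ) : k) = 1 := by
      rw [chi_inv h]
      push_cast
      rw [chi_neg h]
      norm_num
    rw [h5, one_mul] at h4
    rw [← h4]
    congr 1
    ext x
    simp [AddChar.mulShift_apply, AddChar.inv_apply]
  rw [← h3]
  exact h2

/-- the second Gauss sum is the complex conjugate of the first one -/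
lemma gauss_conj (h : χ ^ 3 = 1) {ψ : AddChar k ℂ} :
    (starRingEnd ℂ) (gaussSum χ ψ) = gaussSum χ⁻¹ ψ := by
  have h3 : gaussSum χ⁻¹ ψ⁻¹ = gaussSum χ⁻¹ ψ := by
    have h4 := gaussSum_mulShift χ⁻¹ ψ (-1)
    have h5 : χ⁻¹ ((-1 : kˣ) : k) = 1 := by
      rw [chi_inv h]
      push_cast
      rw [chi_neg h]
      norm_num
    rw [h5, one_mul] at h4
    rw [← h4]
    congr 1
    ext x
    simp [AddChar.mulShift_apply, AddChar.inv_apply]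
  rw [← h3]
  exact star_gaussSum_eq χ ψ

end

end Pool.Agent.N883.C
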