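import Mathlib
import Pool.Agent.N883.C.Cnt
import Pool.Agent.Y145.DW.HD

/-!
# The Frobenius eigenvalues of the cubic threefold and the cubic fivefold
`x₀³ + ... + xₙ³ + δ xₙ₊₁³ = 0` over a finite field
-/

set_option autoImplicit false
set_option linter.unusedSectionVars false
set_option linter.style.haveILetI false

namespace Pool.Agent.N883.C

open Finset
open Pool.Agent.Y145.KS (psi psi_apply psi_ne_one)
open Pool.Agent.Y145.DW (hasse_davenport)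

section
variable {k : Type} [Field k] [Fintype k]

/-- the character `χ ∘ N` of an extension -/
noncomputable def chE (χ : MulChar k ℂ) (E : Type) [Field E] [Finite E] [Algebra k E] :
    MulChar E ℂ where
  toMonoidHom := χ.toMonoidHom.comp (Algebra.norm k)
  map_nonunit' := fun a ha => by
    have h1 : a = 0 := by
      by_contra h
      exact ha (isUnit_iff_ne_zero.2 h)
    haveI : Module.Finite k E := Module.Finite.of_finite
    show χ (Algebra.norm k a) = 0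
    rw [h1, Algebra.norm_zero, MulChar.map_zero]

variable {E : Type} [Field E] [Finite E] [Algebra k E]

lemma chE_apply (χ : MulChar k ℂ) (x : E) : chE χ E x = χ (Algebra.norm k x) := rfl

lemma chE_algebraMap (χ : MulChar k ℂ) (x : k) :
    chE χ E (algebraMap k E x) = χ x ^ Module.finrank k E := by
  rw [chE_apply, Algebra.norm_algebraMap, map_pow]

lemma chE_mul (χ φ : MulChar k ℂ) : chE (χ * φ) E = chE χ E * chE φ E := by
  ext x
  rw [MulChar.mul_apply, chE_apply, chE_apply, chE_apply, MulChar.mul_apply]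

lemma chE_one : chE (1 : MulChar k ℂ) E = 1 := by
  haveI : Module.Finite k E := Module.Finite.of_finite
  ext x
  rw [chE_apply, MulChar.one_apply_coe, MulChar.one_apply]
  exact (Units.map (Algebra.norm k) x).isUnit

lemma chE_pow3 {χ : MulChar k ℂ} (h : χ ^ 3 = 1) : chE χ E ^ 3 = 1 := by
  rw [← chE_one (k := k), ← h, pow_succ, pow_succ, pow_one, pow_succ, pow_succ, pow_one,
    chE_mul, chE_mul]

lemma chE_inv (χ : MulChar k ℂ) : (chE χ E)⁻¹ = chE χ⁻¹ E := by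
  rw [inv_eq_iff_mul_eq_one, ← chE_mul, mul_inv_cancel, chE_one]

lemma chE_ne_one {χ : MulChar k ℂ} (h : χ ≠ 1) : chE χ E ≠ 1 := by
  haveI : Module.Finite k E := Module.Finite.of_finite
  intro h1
  apply h
  ext x
  obtain ⟨y, hy⟩ := FiniteField.norm_surjective k E (x : k)
  have hy0 : IsUnit y := by
    rw [isUnit_iff_ne_zero]
    rintro rfl
    rw [Algebra.norm_zero] at hy
    exact x.ne_zero hy.symm
  rw [← hy, ← chE_apply, h1, MulChar.one_apply hy0, hy, MulChar.one_apply_coe]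

lemma gauss_E [Fintype E] (χ : MulChar k ℂ) {ψ : AddChar k ℂ} (hψ : ψ ≠ 1) :
    gaussSum (chE χ E) (psi ψ E) =
      (-1) ^ (Module.finrank k E - 1) * gaussSum χ ψ ^ Module.finrank k E := by
  classical
  rw [← hasse_davenport (E := E) χ hψ]
  rfl

lemma sgn_aux {r : ℕ} (hr : 0 < r) : ((-1 : ℂ)) ^ (r - 1) * (-1) ^ r = -1 := by
  obtain ⟨s, rfl⟩ : ∃ s, r = s + 1 := ⟨r - 1, by omega⟩
  rw [Nat.add_sub_cancel, pow_succ, ← mul_assoc, ← mul_pow]
  norm_num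

lemma sgn_sq (r : ℕ) : (((-1 : ℂ)) ^ (r - 1)) ^ 2 = 1 := by
  rw [← pow_mul, mul_comm, pow_mul]
  norm_num

/-- a Frobenius eigenvalue of the curve `y² + δ y = x³` -/
noncomputable def bt (χ : MulChar k ℂ) (ψ : AddChar k ℂ) (δ : k) : ℂ :=
  -(χ δ ^ 2 * gaussSum χ ψ ^ 3 / Fintype.card k)

lemma q_ne : (Fintype.card k : ℂ) ≠ 0 := by
  have : 0 < Fintype.card k := Fintype.card_pos
  exact_mod_cast this.ne'

lemma conj_chi {χ : MulChar k ℂ} (h : χ ^ 3 = 1) (x : k) : (starRingEnd ℂ) (χ x) = χ x ^ 2 := by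
  have h1 : χ⁻¹ x = star (χ x) := by rw [← MulChar.star_eq_inv, MulChar.star_apply]
  rw [chi_inv h] at h1
  exact h1.symm

lemma bt_conj {χ : MulChar k ℂ} (h : χ ^ 3 = 1) {ψ : AddChar k ℂ} {δ : k} (hδ : δ ≠ 0) :
    (starRingEnd ℂ) (bt χ ψ δ) = -(χ δ * gaussSum χ⁻¹ ψ ^ 3 / Fintype.card k) := by
  unfold bt
  rw [map_neg, map_div₀, map_mul, map_pow, map_pow, conj_chi h, gauss_conj h, map_natCast]
  have h1 := chi3 h hδ
  have h2 : (χ δ ^ 2) ^ 2 = χ δ := by linear_combination χ δ * h1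
  rw [h2]

lemma bt_norm {χ : MulChar k ℂ} (h : χ ^ 3 = 1) (h1 : χ ≠ 1) {ψ : AddChar k ℂ} (hψ : ψ ≠ 1)
    {δ : k} (hδ : δ ≠ 0) : bt χ ψ δ * (starRingEnd ℂ) (bt χ ψ δ) = Fintype.card k := by
  rw [bt_conj h hδ]
  unfold bt
  have h2 := gauss_mul h h1 hψ
  have h3 := chi3 h hδ
  have hq := q_ne (k := k)
  field_simp
  have h4 : gaussSum χ ψ ^ 3 * gaussSum χ⁻¹ ψ ^ 3 = (Fintype.card k : ℂ) ^ 3 := by
    rw [← mul_pow, h2]
  linear_combination (χ δ ^ 3) * h4 + (Fintype.card k : ℂ) ^ 3 * h3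

lemma bt_cube {χ : MulChar k ℂ} (h : χ ^ 3 = 1) {ψ : AddChar k ℂ} (δ : k) {z : k} (hz : z ≠ 0) :
    bt χ ψ (δ * z ^ 3) = bt χ ψ δ := by
  unfold bt
  rw [map_mul, map_pow, chi3 h hz, mul_one]

/-- the cubic threefold -/
theorem cone3_E {χ : MulChar k ℂ} (h : χ ^ 3 = 1) (h1 : χ ≠ 1) {ψ : AddChar k ℂ} (hψ : ψ ≠ 1)
    {δ : k} (hδ : δ ≠ 0) :
    (Nat.card (Cone 3 (algebraMap k E δ)) : ℂ) = (Nat.card E : ℂ) ^ 4 - (Nat.card E - 1) *
      (4 * ((Fintype.card k * bt χ ψ δ) ^ Module.finrank k E +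
        (Fintype.card k * (starRingEnd ℂ) (bt χ ψ δ)) ^ Module.finrank k E) +
      ((Fintype.card k * bt χ ψ (δ ^ 2)) ^ Module.finrank k E +
        (Fintype.card k * (starRingEnd ℂ) (bt χ ψ (δ ^ 2))) ^ Module.finrank k E)) := by
  haveI : Module.Finite k E := Module.Finite.of_finite
  let _ : Fintype E := Fintype.ofFinite E
  have hr : 0 < Module.finrank k E := Module.finrank_pos
  have hδ' : algebraMap k E δ ≠ 0 := by
    rwa [Ne, map_eq_zero_iff _ (algebraMap k E).injective]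
  have h2 := cone3 (chE_pow3 (E := E) h) (chE_ne_one (E := E) h1) (psi_ne_one hψ E) hδ'
  have hcard : (Fintype.card E : ℂ) = (Fintype.card k : ℂ) ^ Module.finrank k E := by
    rw [Module.card_eq_pow_finrank (K := k) (V := E)]
    push_cast
    rfl
  rw [chE_inv, gauss_E χ hψ, gauss_E χ⁻¹ hψ, chE_algebraMap, hcard] at h2
  rw [bt_conj h hδ, bt_conj h (pow_ne_zero 2 hδ), Nat.card_eq_fintype_card (α := E), hcard]
  unfold bt
  rw [map_pow]
  have hg := gauss_mul h h1 hψ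
  have hd := chi3 h hδ
  have hq := q_ne (k := k)
  set r := Module.finrank k E with hrdef
  set g := gaussSum χ ψ with hgdef
  set g' := gaussSum χ⁻¹ ψ with hgdef'
  set d := χ δ with hddef
  set q := (Fintype.card k : ℂ) with hqdef
  set s := ((-1 : ℂ)) ^ (r - 1) with hs
  have hs2 : s ^ 2 = 1 := sgn_sq r
  have hs1 : s * (-1) ^ r = -1 := sgn_aux hr
  have hqr : q ^ r ≠ 0 := pow_ne_zero r hq
  have key : ∀ z w : ℂ, z = -(q * w) → s * z ^ r = -(q ^ r * w ^ r) := by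
    intro z w hz
    rw [hz, neg_pow, mul_pow]
    linear_combination (q ^ r * w ^ r) * hs1
  have can : ∀ x : ℂ, q * -(x / q) = -x := fun x => by field_simp
  have k1 := key (g * g' ^ 4 * d) (q * -(d * g' ^ 3 / q)) (by
    rw [can]
    linear_combination (d * g' ^ 3) * hg)
  have k2 := key (g * g' ^ 4 * d ^ 2) (q * -(d ^ 2 * g' ^ 3 / q)) (by
    rw [can]
    linear_combination (d ^ 2 * g' ^ 3) * hg)
  have k3 := key (g ^ 4 * g' * d ^ 2) (q * -(d ^ 2 * g ^ 3 / q)) (by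
    rw [can]
    linear_combination (d ^ 2 * g ^ 3) * hg)
  have k4 := key (g ^ 4 * g' * d) (q * -((d ^ 2) ^ 2 * g ^ 3 / q)) (by
    rw [can]
    linear_combination (d * g ^ 3) * hg - q * d * g ^ 3 * hd)
  have e4 : s ^ 4 = 1 := by linear_combination (s ^ 2 + 1) * hs2
  have e5 : s * g ^ r * (s * g' ^ r) ^ 4 = s * (g * g' ^ 4) ^ r := by
    rw [mul_pow g]
    linear_combination (s * g ^ r * (g' ^ r) ^ 4) * e4
  have e6 : (s * g ^ r) ^ 4 * (s * g' ^ r) = s * (g ^ 4 * g') ^ r := by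
    rw [mul_pow (g ^ 4)]
    linear_combination (s * (g ^ r) ^ 4 * g' ^ r) * e4
  rw [e5, e6] at h2
  apply mul_left_cancel₀ hqr
  rw [h2]
  rw [mul_pow] at k1 k2 k3 k4
  linear_combination (q ^ r - 1) * (k2 + 4 * k1 + 4 * k3 + k4)

/-- the cubic fivefold -/
theorem cone5_E {χ : MulChar k ℂ} (h : χ ^ 3 = 1) (h1 : χ ≠ 1) {ψ : AddChar k ℂ} (hψ : ψ ≠ 1)
    {δ : k} (hδ : δ ≠ 0) :
    (Nat.card (Cone 5 (algebraMap k E δ)) : ℂ) = (Nat.card E : ℂ) ^ 6 - (Nat.card E - 1) *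
      (15 * (((Fintype.card k : ℂ) ^ 2 * bt χ ψ δ) ^ Module.finrank k E +
        ((Fintype.card k : ℂ) ^ 2 * (starRingEnd ℂ) (bt χ ψ δ)) ^ Module.finrank k E) +
      6 * (((Fintype.card k : ℂ) ^ 2 * bt χ ψ (δ ^ 2)) ^ Module.finrank k E +
        ((Fintype.card k : ℂ) ^ 2 * (starRingEnd ℂ) (bt χ ψ (δ ^ 2))) ^ Module.finrank k E)) := by
  haveI : Module.Finite k E := Module.Finite.of_finite
  let _ : Fintype E := Fintype.ofFinite E
  have hr : 0 < Module.finrank k E := Module.finrank_pos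
  have hδ' : algebraMap k E δ ≠ 0 := by
    rwa [Ne, map_eq_zero_iff _ (algebraMap k E).injective]
  have h2 := cone5 (chE_pow3 (E := E) h) (chE_ne_one (E := E) h1) (psi_ne_one hψ E) hδ'
  have hcard : (Fintype.card E : ℂ) = (Fintype.card k : ℂ) ^ Module.finrank k E := by
    rw [Module.card_eq_pow_finrank (K := k) (V := E)]
    push_cast
    rfl
  rw [chE_inv, gauss_E χ hψ, gauss_E χ⁻¹ hψ, chE_algebraMap, hcard] at h2
  rw [bt_conj h hδ, bt_conj h (pow_ne_zero 2 hδ), Nat.card_eq_fintype_card (α := E), hcard]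
  unfold bt
  rw [map_pow]
  have hg := gauss_mul h h1 hψ
  have hd := chi3 h hδ
  have hq := q_ne (k := k)
  set r := Module.finrank k E with hrdef
  set g := gaussSum χ ψ with hgdef
  set g' := gaussSum χ⁻¹ ψ with hgdef'
  set d := χ δ with hddef
  set q := (Fintype.card k : ℂ) with hqdef
  set s := ((-1 : ℂ)) ^ (r - 1) with hs
  have hs2 : s ^ 2 = 1 := sgn_sq r
  have hs1 : s * (-1) ^ r = -1 := sgn_aux hr
  have hqr : q ^ r ≠ 0 := pow_ne_zero r hq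
  have key : ∀ z w : ℂ, z = -(q * w) → s * z ^ r = -(q ^ r * w ^ r) := by
    intro z w hz
    rw [hz, neg_pow, mul_pow]
    linear_combination (q ^ r * w ^ r) * hs1
  have can : ∀ x : ℂ, q ^ 2 * -(x / q) = -(q * x) := fun x => by field_simp
  have k1 := key (g ^ 2 * g' ^ 5 * d) (q ^ 2 * -(d * g' ^ 3 / q)) (by
    rw [can]
    linear_combination (d * g' ^ 3 * (g * g' + q)) * hg)
  have k2 := key (g ^ 2 * g' ^ 5 * d ^ 2) (q ^ 2 * -(d ^ 2 * g' ^ 3 / q)) (by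
    rw [can]
    linear_combination (d ^ 2 * g' ^ 3 * (g * g' + q)) * hg)
  have k3 := key (g ^ 5 * g' ^ 2 * d ^ 2) (q ^ 2 * -(d ^ 2 * g ^ 3 / q)) (by
    rw [can]
    linear_combination (d ^ 2 * g ^ 3 * (g * g' + q)) * hg)
  have k4 := key (g ^ 5 * g' ^ 2 * d) (q ^ 2 * -((d ^ 2) ^ 2 * g ^ 3 / q)) (by
    rw [can]
    linear_combination (d * g ^ 3 * (g * g' + q)) * hg - q ^ 2 * d * g ^ 3 * hd)
  have e4 : s ^ 6 = 1 := by linear_combination (s ^ 4 + s ^ 2 + 1) * hs2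
  have e5 : (s * g ^ r) ^ 2 * (s * g' ^ r) ^ 5 = s * (g ^ 2 * g' ^ 5) ^ r := by
    rw [mul_pow (g ^ 2)]
    linear_combination (s * (g ^ r) ^ 2 * (g' ^ r) ^ 5) * e4
  have e6 : (s * g ^ r) ^ 5 * (s * g' ^ r) ^ 2 = s * (g ^ 5 * g' ^ 2) ^ r := by
    rw [mul_pow (g ^ 5)]
    linear_combination (s * (g ^ r) ^ 5 * (g' ^ r) ^ 2) * e4
  rw [e5, e6] at h2
  apply mul_left_cancel₀ hqr
  rw [h2]
  rw [mul_pow] at k1 k2 k3 k4
  linear_combination (q ^ r - 1) * (6 * k2 + 15 * k1 + 15 * k3 + 6 * k4)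

open scoped Classical in
/-- the number of affine points of `y² + δ y = x³` -/
theorem card_aff {χ : MulChar k ℂ} (h : χ ^ 3 = 1) (h1 : χ ≠ 1) {ψ : AddChar k ℂ} (hψ : ψ ≠ 1)
    {δ : k} (hδ : δ ≠ 0) :
    (Nat.card {p : k × k // p.2 ^ 2 + δ * p.2 = p.1 ^ 3} : ℂ) =
      Fintype.card k - bt χ ψ δ - (starRingEnd ℂ) (bt χ ψ δ) := by
  have e1 : Nat.card {p : k × k // p.2 ^ 2 + δ * p.2 = p.1 ^ 3} =
      ∑ y : k, Nat.card {x : k // x ^ 3 = y ^ 2 + δ * y} := by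
    rw [← Nat.card_sigma]
    refine Nat.card_congr
      { toFun := fun p => ⟨p.1.2, p.1.1, p.2.symm⟩
        invFun := fun p => ⟨(p.2.1, p.1), p.2.2.symm⟩
        left_inv := fun p => rfl
        right_inv := fun p => rfl }
  have hJ : ∀ φ : MulChar k ℂ, φ ^ 3 = 1 → ∑ y : k, φ (y ^ 2 + δ * y) = φ δ ^ 2 * jacobiSum φ φ := by
    intro φ hφ
    unfold jacobiSum
    rw [Finset.mul_sum]
    have e2 : Function.Bijective (fun y : k => -δ * y) :=
      mulLeft_bijective₀ _ (neg_ne_zero.2 hδ)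
    rw [← Function.Bijective.sum_comp e2]
    refine Finset.sum_congr rfl fun y _ => ?_
    have e3 : (-δ * y) ^ 2 + δ * (-δ * y) = -1 * (δ ^ 2 * (y * (1 - y))) := by ring
    rw [e3, map_mul, chi_neg hφ, one_mul, map_mul, map_mul, map_pow]
  have h3 : χ⁻¹ ^ 3 = 1 := by rw [inv_pow, h, inv_one]
  have h4 : χ⁻¹ ≠ 1 := by simpa using h1
  have hχ2 : χ * χ = χ⁻¹ := by
    rw [eq_inv_iff_mul_eq_one, ← pow_two, ← pow_succ, h]
  have hχ2' : χ⁻¹ * χ⁻¹ = χ := by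
    rw [← mul_inv, hχ2, inv_inv]
  have j1 : gaussSum χ⁻¹ ψ * jacobiSum χ χ = gaussSum χ ψ * gaussSum χ ψ := by
    have := jacobiSum_mul_nontrivial (χ := χ) (φ := χ) (by rw [hχ2]; exact h4) ψ
    rwa [hχ2] at this
  have j2 : gaussSum χ ψ * jacobiSum χ⁻¹ χ⁻¹ = gaussSum χ⁻¹ ψ * gaussSum χ⁻¹ ψ := by
    have := jacobiSum_mul_nontrivial (χ := χ⁻¹) (φ := χ⁻¹) (by rw [hχ2']; exact h1) ψ
    rwa [hχ2'] at this
  have hg := gauss_mul h h1 hψ
  have hd := chi3 h hδ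
  have hq := q_ne (k := k)
  rw [e1]
  push_cast
  simp only [card_cube h h1]
  rw [Finset.sum_add_distrib, Finset.sum_add_distrib, hJ χ h]
  have e5 : ∑ y : k, χ (y ^ 2 + δ * y) ^ 2 = χ δ * jacobiSum χ⁻¹ χ⁻¹ := by
    rw [Finset.sum_congr rfl fun y _ => (chi_inv h (y ^ 2 + δ * y)).symm, hJ χ⁻¹ h3, chi_inv h]
    linear_combination (χ δ * jacobiSum χ⁻¹ χ⁻¹) * hd
  rw [e5, bt_conj h hδ]
  unfold bt
  have e6 : jacobiSum χ χ = gaussSum χ ψ ^ 3 / Fintype.card k := by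
    rw [eq_div_iff hq]
    linear_combination (gaussSum χ ψ) * j1 - jacobiSum χ χ * hg
  have e7 : jacobiSum χ⁻¹ χ⁻¹ = gaussSum χ⁻¹ ψ ^ 3 / Fintype.card k := by
    rw [eq_div_iff hq]
    linear_combination (gaussSum χ⁻¹ ψ) * j2 - jacobiSum χ⁻¹ χ⁻¹ * hg
  rw [e6, e7]
  simp only [Finset.sum_const, Finset.card_univ, nsmul_eq_mul, mul_one]
  ring

end

/-- **The local statement.** -/
theorem exists_bt (k : Type) [Field k] [Fintype k] (hk : 3 ∣ Fintype.card k - 1) :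
    ∃ β : k → ℂ, (∀ δ z : k, z ≠ 0 → β (δ * z ^ 3) = β δ) ∧ ∀ δ : k, δ ≠ 0 →
      β δ * (starRingEnd ℂ) (β δ) = Fintype.card k ∧
      (Nat.card {p : k × k // p.2 ^ 2 + δ * p.2 = p.1 ^ 3} : ℂ) =
        Fintype.card k - β δ - (starRingEnd ℂ) (β δ) ∧
      ∀ (E : Type) [Field E] [Finite E] [Algebra k E],
        (Nat.card (Cone 3 (algebraMap k E δ)) : ℂ) = (Nat.card E : ℂ) ^ 4 - (Nat.card E - 1) *
          (4 * ((Fintype.card k * β δ) ^ Module.finrank k E +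
            (Fintype.card k * (starRingEnd ℂ) (β δ)) ^ Module.finrank k E) +
          ((Fintype.card k * β (δ ^ 2)) ^ Module.finrank k E +
            (Fintype.card k * (starRingEnd ℂ) (β (δ ^ 2))) ^ Module.finrank k E)) ∧
        (Nat.card (Cone 5 (algebraMap k E δ)) : ℂ) = (Nat.card E : ℂ) ^ 6 - (Nat.card E - 1) *
          (15 * (((Fintype.card k : ℂ) ^ 2 * β δ) ^ Module.finrank k E +
            ((Fintype.card k : ℂ) ^ 2 * (starRingEnd ℂ) (β δ)) ^ Module.finrank k E) +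
          6 * (((Fintype.card k : ℂ) ^ 2 * β (δ ^ 2)) ^ Module.finrank k E +
            ((Fintype.card k : ℂ) ^ 2 * (starRingEnd ℂ) (β (δ ^ 2))) ^ Module.finrank k E)) := by
  obtain ⟨χ, h, h1⟩ := exists_cubic hk
  obtain ⟨ψ, hψ⟩ : ∃ ψ : AddChar k ℂ, ψ ≠ 1 := by
    obtain ⟨ψ, hψ⟩ := (AddChar.exists_apply_ne_zero (a := (1 : k))).2 one_ne_zero
    refine ⟨ψ, ?_⟩
    rintro rfl
    simp at hψ
  exact ⟨bt χ ψ, fun δ z hz => bt_cube h δ hz, fun δ hδ => ⟨bt_norm h h1 hψ hδ,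
    card_aff h h1 hψ hδ, fun E _ _ _ => ⟨cone3_E h h1 hψ hδ, cone5_E h h1 hψ hδ⟩⟩⟩

end Pool.Agent.N883.C
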